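import Pool.Graph.R_pool_sql_team_ae5b0c61.H84.Beq2

/-! # `b^eq_b` for `b` tending to infinity and for all other `b` -/

namespace Pool.Agent.KS6_94.BE

open Set Filter MeasureTheory Pool.Agent.H84.BeqDefs
open Cardinal hiding univ

/-- the upper bound for all `b` tending to infinity -/
theorem all_inf {κ : Cardinal} (h : Loc κ) {b : ℕ → ℕ} (h1 : ∀ k, 1 ≤ b k)
    (h2 : Tendsto b atTop atTop) : bEq b ≤ κ := by
  classical
  have : ∀ n, ∀ᶠ m in atTop, ∀ k, m ≤ k → 2 ^ n < b k := fun n => eventually_forall_ge_atTop.2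
    (h2.eventually_gt_atTop _)
  obtain ⟨J, j1, j2⟩ := extraction_forall_of_eventually this
  obtain ⟨n, n1, n2, n3⟩ := Pool.Agent.H84.Beq.idx j1
  obtain ⟨S, s1, s2, s3⟩ := h fun m => (Fintype.piFinset fun i : Fin (J (m + 1)) =>
    Finset.range (b i)).sup Encodable.encode + 1
  have : ∀ (s : S) k, ∃ v < b k, J 0 ≤ k → ∀ g : Fin (J (n k + 1)) → ℕ,
      Encodable.encode g ∈ s.1 (n k) → g ⟨k, n1 k⟩ ≠ v := fun s k => by
    by_cases r : J 0 ≤ k
    · obtain ⟨v, a, c⟩ := Finset.exists_mem_notMem_of_card_lt_card (s := ((s.1 (n k)).preimage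
        Encodable.encode Encodable.encode_injective.injOn).image
          fun g : Fin (J (n k + 1)) → ℕ => g ⟨k, n1 k⟩) (t := Finset.range (b k))
        (Finset.card_image_le.trans_lt ((Finset.card_le_card_of_injOn _
          (fun _ t => Finset.mem_preimage.1 t) Encodable.encode_injective.injOn).trans_lt
          ((s2 _ s.2 _).trans_lt ((j2 _ k (n2 k r)).trans_eq (Finset.card_range _).symm))))
      exact ⟨v, Finset.mem_range.1 a, fun _ g t e =>
        c (Finset.mem_image.2 ⟨g, Finset.mem_preimage.2 t, e⟩)⟩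
    · exact ⟨0, h1 k, fun t => absurd t r⟩
  choose f f1 f2 using this
  refine le_trans (csInf_le' ?_) ((mk_range_le (f := f)).trans s1)
  refine ⟨_, range_subset_iff.2 f1, fun ⟨p, r, t⟩ => ?_, rfl⟩
  obtain ⟨s, a, c⟩ := s3 (fun m => Encodable.encode fun i : Fin (J (m + 1)) => p.2 i) fun m =>
    Nat.lt_succ_of_le (Finset.le_sup (f := Encodable.encode)
      (Fintype.mem_piFinset.2 fun i => Finset.mem_range.2 (r.2.2 i)))
  obtain ⟨m, e⟩ := eventually_atTop.1 c
  obtain ⟨k, u, v⟩ := frequently_atTop.1 (Pool.Agent.H84.Beq.Sq.freq r (t _ ⟨⟨s, a⟩, rfl⟩)) (J m)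
  exact f2 ⟨s, a⟩ k ((j1.monotone m.zero_le).trans u) _ (e _ (n3 _ _ u)) v.symm

/-- finitely many sets do not split all infinite sets -/
theorem fin_unsplit {S : Set (Set ℕ)} (hS : S.Finite) : ∀ X : Set ℕ, X.Infinite → ∃ Y ⊆ X,
    Y.Infinite ∧ ∀ A ∈ S, (Y ∩ A).Finite ∨ (Y \ A).Finite := by
  induction S, hS using Set.Finite.induction_on with
  | empty => exact fun X hX => ⟨X, subset_rfl, hX, fun A hA => absurd hA (notMem_empty A)⟩
  | @insert A S _ _ ih =>
    intro X hX
    obtain ⟨Y, hYX, hY, h⟩ := ih X hX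
    by_cases hi : (Y ∩ A).Infinite
    · refine ⟨Y ∩ A, inter_subset_left.trans hYX, hi, fun B hB => ?_⟩
      rcases hB with rfl | hB
      · exact Or.inr ((Set.finite_empty).subset fun k hk => hk.2 hk.1.2)
      · exact (h B hB).imp (fun q => q.subset (inter_subset_inter_left _ inter_subset_left))
          (fun q => q.subset (sdiff_subset_sdiff_left inter_subset_left))
    · refine ⟨Y, hYX, hY, fun B hB => ?_⟩
      rcases hB with rfl | hB
      · exact Or.inl (not_infinite.1 hi)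
      · exact h B hB

theorem sN_mem : ∃ S : Set (Set ℕ), (∀ X : Set ℕ, X.Infinite → ∃ A ∈ S, (X ∩ A).Infinite ∧
    (X \ A).Infinite) ∧ #S = sN := by
  refine csInf_mem (s := {c | ∃ S : Set (Set ℕ), (∀ X : Set ℕ, X.Infinite → ∃ A ∈ S,
    (X ∩ A).Infinite ∧ (X \ A).Infinite) ∧ #S = c}) ⟨_, univ, fun X hX => ?_, rfl⟩
  classical
  have hm := Nat.nth_strictMono hX
  have hmem : ∀ n, Nat.nth (· ∈ X) n ∈ X := fun n => Nat.nth_mem_of_infinite hX n
  refine ⟨{k | ∃ n, Nat.nth (· ∈ X) (2 * n) = k}, mem_univ _, ?_, ?_⟩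
  · refine (infinite_range_of_injective (f := fun n => Nat.nth (· ∈ X) (2 * n))
      fun a c e => by have := hm.injective e; omega).mono ?_
    rintro _ ⟨n, rfl⟩
    exact ⟨hmem _, n, rfl⟩
  · refine (infinite_range_of_injective (f := fun n => Nat.nth (· ∈ X) (2 * n + 1))
      fun a c e => by have := hm.injective e; omega).mono ?_
    rintro _ ⟨n, rfl⟩
    refine ⟨hmem _, ?_⟩
    rintro ⟨m, e⟩
    have := hm.injective e
    omega

theorem sN_inf : ℵ₀ ≤ sN := by
  obtain ⟨S, h, e⟩ := sN_mem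
  rw [← e]
  by_contra hc
  obtain ⟨Y, _, hY, q⟩ := fin_unsplit (lt_aleph0_iff_set_finite.1 (not_le.1 hc)) univ infinite_univ
  obtain ⟨A, hA, a1, a2⟩ := h Y hY
  exact (q A hA).elim a1 a2

/-- nonemptiness -/
theorem not_bdd {b : ℕ → ℕ} (h1 : ∀ k, 1 ≤ b k) (h2 : ∀ᶠ k in atTop, 2 ≤ b k) :
    ¬ ∃ p ∈ Pairs b, ∀ f ∈ Pr b, Sq f p := fun ⟨p, r, s⟩ => by
  obtain ⟨n, ⟨k, u, v⟩, w⟩ := ((s (fun k => if p.2 k = 0 then b k - 1 else 0) fun k => by
    have := h1 k; beta_reduce; split_ifs <;> omega).and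
      (r.1.tendsto_atTop.eventually (eventually_forall_ge_atTop.2 h2))).exists
  have := w k u.1
  beta_reduce at v
  split_ifs at v <;> omega

/-- a value taken infinitely often -/
theorem exists_val {b : ℕ → ℕ} (h3 : ¬ Tendsto b atTop atTop) : ∃ c, {k | b k = c}.Infinite := by
  by_contra hc
  push Not at hc
  refine h3 (tendsto_atTop.2 fun n => ?_)
  have : {k | b k < n}.Finite := by
    refine ((finite_lt_nat n).biUnion (t := fun c => {k | b k = c}) fun c _ => hc c).subset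
      fun k hk => mem_biUnion (show b k ∈ {i | i < n} from hk) rfl
  have h := this.bddAbove
  obtain ⟨M, hM⟩ := h
  filter_upwards [eventually_gt_atTop M] with k hk
  by_contra hn
  exact absurd (hM (show k ∈ {k | b k < n} from not_le.1 hn)) (not_le.2 hk)

/-- on a sequence of coordinates with `b = c` -/
theorem sN_le {b : ℕ → ℕ} (h1 : ∀ k, 1 ≤ b k) (h2 : ∀ᶠ k in atTop, 2 ≤ b k)
    (h3 : ¬ Tendsto b atTop atTop) : sN ≤ bEq b := by
  classical
  obtain ⟨c, hc⟩ := exists_val h3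
  have c1 : 1 ≤ c := by
    obtain ⟨k, hk⟩ := hc.nonempty
    exact (h1 k).trans_eq hk
  refine le_csInf ⟨_, Pr b, subset_rfl, not_bdd h1 h2, rfl⟩ ?_
  rintro _ ⟨F, r, s, rfl⟩
  by_contra hlt
  rw [not_le] at hlt
  let e : ℕ → ℕ := Nat.nth (fun k => b k = c)
  have he : StrictMono e := Nat.nth_strictMono hc
  have hec : ∀ n, b (e n) = c := fun n => Nat.nth_mem_of_infinite hc n
  let G : F × ULift.{0} (Fin c) → Set ℕ := fun q => {j | q.1.1 (e j) = q.2.down.1}
  have hG : #(range G) < sN := by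
    refine mk_range_le.trans_lt ?_
    rw [mk_prod, lift_id, lift_id]
    refine mul_lt_of_lt sN_inf hlt (lt_of_lt_of_le ?_ sN_inf)
    exact mk_lt_aleph0
  have : ∃ X : Set ℕ, X.Infinite ∧ ∀ A ∈ range G, (X ∩ A).Finite ∨ (X \ A).Finite := by
    by_contra hn
    push Not at hn
    exact hG.not_ge (csInf_le' ⟨range G, fun X hX => by
      obtain ⟨A, hA, a, b⟩ := hn X hX
      exact ⟨A, hA, a, b⟩, rfl⟩)
  obtain ⟨X, hX, hA⟩ := this
  let w : ℕ → ℕ := fun n => e (Nat.nth (· ∈ X) n)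
  have hg : StrictMono (Nat.nth (· ∈ X)) := Nat.nth_strictMono hX
  have hgm : ∀ n, Nat.nth (· ∈ X) n ∈ X := fun n => Nat.nth_mem_of_infinite hX n
  have hw : StrictMono w := he.comp hg
  have hx : ∀ x ∈ F, ∃ i < c, ∀ᶠ n in atTop, x (w n) = i := by
    intro x hxF
    obtain ⟨i, hi, hinf⟩ : ∃ i < c, (X ∩ {j | x (e j) = i}).Infinite := by
      by_contra hn
      push Not at hn
      refine hX (((finite_lt_nat c).biUnion (t := fun i => X ∩ {j | x (e j) = i})
        fun i hi => hn i hi).subset fun j hj => ?_)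
      exact mem_biUnion (show x (e j) ∈ {i | i < c} from (r hxF (e j)).trans_eq (hec j)) ⟨hj, rfl⟩
    refine ⟨i, hi, ?_⟩
    have hfin : (X \ {j | x (e j) = i}).Finite :=
      (hA _ ⟨(⟨x, hxF⟩, ⟨⟨i, hi⟩⟩), rfl⟩).resolve_left hinf
    obtain ⟨M, hM⟩ := hfin.bddAbove
    filter_upwards [eventually_gt_atTop M] with n hn
    by_contra hne
    have h5 : Nat.nth (· ∈ X) n ≤ M := hM ⟨hgm n, hne⟩
    have h6 := hg.id_le n
    simp only [id] at h6
    omega
  refine s ⟨(fun n => if n = 0 then 0 else w (c * n), fun k => if hk : ∃ n, w n = k then hk.choose % c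
    else 0), ⟨strictMono_nat_of_lt_succ fun n => ?_, by simp, fun k => ?_⟩, fun x hxF => ?_⟩
  · have hwid := hw.id_le (c * (n + 1))
    have hlt2 : c * n < c * (n + 1) := by nlinarith
    by_cases hn : n = 0
    · subst hn
      simp only [Nat.zero_add, mul_one, id] at hwid
      simp only [if_true, Nat.zero_add, one_ne_zero, if_false, mul_one]
      omega
    · simp only [hn, if_false, Nat.succ_ne_zero]
      exact hw hlt2
  · dsimp only
    split_ifs with hk
    · have h5 := hk.choose_spec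
      have h6 : b k = c := by rw [← h5]; exact hec _
      rw [h6]
      exact Nat.mod_lt _ c1
    · exact h1 k
  · obtain ⟨i, hi, hev⟩ := hx x hxF
    obtain ⟨M, hM⟩ := eventually_atTop.1 hev
    unfold Sq
    filter_upwards [eventually_ge_atTop (M + 1)] with n hn
    have hn0 : n ≠ 0 := by omega
    have hcn : n ≤ c * n := Nat.le_mul_of_pos_left n c1
    refine ⟨w (c * n + i), ⟨?_, ?_⟩, ?_⟩
    · simp only [hn0, if_false]
      exact hw.monotone (Nat.le_add_right _ _)
    · simp only [Nat.succ_ne_zero, if_false]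
      exact hw (by nlinarith)
    · rw [hM _ (by omega)]
      have hk : ∃ m, w m = w (c * n + i) := ⟨_, rfl⟩
      rw [dif_pos hk, hw.injective hk.choose_spec, Nat.mul_add_mod, Nat.mod_eq_of_lt hi]

end Pool.Agent.KS6_94.BE
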