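import Pool.Agent.KS6_94.BE.A

/-! # `b^eq_b` for `b` with the value `2` infinitely often -/

namespace Pool.Agent.KS6_94.BE

open Set Filter MeasureTheory Pool.Agent.H84.BeqDefs
open Cardinal hiding univ

/-- closed null sets are nowhere dense -/
theorem EM : E ⊆ M := by
  rintro A ⟨K, hK, hsub⟩
  have hn : ∀ n, IsMeagre (K n) := fun n => by
    have hint : interior (K n) = ∅ := by
      by_contra hne
      obtain ⟨z, hz⟩ := nonempty_iff_ne_empty.2 hne
      obtain ⟨V, ⟨w, m, rfl⟩, hzV, hVU⟩ :=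
        (PiNat.isTopologicalBasis_cylinders (fun _ : ℕ => Bool)).exists_subset_of_mem_open hz
          isOpen_interior
      have h0 : μ (Set.pi (Finset.range m) fun j => {z j}) = 0 :=
        measure_mono_null (fun y hy => interior_subset (hVU fun i hi => by
          have h5 : y i = z i := hy i (by simpa using hi)
          rw [h5]
          exact hzV i hi)) (hK n).2
      rw [Pool.Agent.H84.Beq.cyl] at h0
      simp at h0
    exact ((hK n).1.isNowhereDense_iff.2 hint).isMeagre
  exact (isMeagre_iUnion hn).mono hsub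

theorem univ_notMem_M : (univ : Set (ℕ → Bool)) ∉ M := fun h => by
  have h1 : IsMeagre (univ : Set (ℕ → Bool)) := h
  have h2 : (univᶜ : Set (ℕ → Bool)) ∈ residual (ℕ → Bool) := h1
  have h3 := (dense_of_mem_residual h2).nonempty
  simp at h3

theorem nonE_le_nonM : non E ≤ non M := by
  refine le_csInf ⟨_, univ, univ_notMem_M, rfl⟩ ?_
  rintro _ ⟨A, hA, rfl⟩
  exact csInf_le' ⟨A, fun h => hA (EM h), rfl⟩

theorem nonM_le {b : ℕ → ℕ} (h1 : ∀ k, 1 ≤ b k) (h2 : ∀ᶠ k in atTop, 2 ≤ b k)
    (hc : ∃ᶠ k in atTop, b k = 2) : non M ≤ bEq b := by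
  classical
  rw [Nat.frequently_atTop_iff_infinite] at hc
  refine le_csInf ⟨_, Pr b, subset_rfl, not_bdd h1 h2, rfl⟩ ?_
  rintro _ ⟨F, r, s, rfl⟩
  let w : ℕ → ℕ := Nat.nth (fun k => b k = 2)
  have hw : StrictMono w := Nat.nth_strictMono hc
  have hwb : ∀ n, b (w n) = 2 := fun n => Nat.nth_mem_of_infinite hc n
  let T : (ℕ → ℕ) → ℕ → Bool := fun x n => decide (x (w n) = 1)
  refine le_trans (csInf_le' ⟨T '' F, fun hm => ?_, rfl⟩) mk_image_le
  obtain ⟨l, σ, hs⟩ := Pool.Agent.H42.IMeag.meagre_sub (show IsMeagre (T '' F) from hm)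
  let J : ℕ → ℕ := fun n => n.rec 0 fun _ a => max (l a) (a + 1)
  have j1 : StrictMono J := strictMono_nat_of_lt_succ fun n =>
    lt_max_of_lt_right (J n).lt_succ_self
  obtain ⟨n, n1, n2, n3⟩ := Pool.Agent.H84.Beq.idx j1
  refine s ⟨(fun m => if m = 0 then 0 else w (J m), fun k => if hk : ∃ i, w i = k then
    (if σ (J (n hk.choose)) hk.choose = true then 0 else 1) else 0),
    ⟨strictMono_nat_of_lt_succ fun m => ?_, by simp, fun k => ?_⟩, fun x hxF => ?_⟩
  · by_cases hm0 : m = 0
    · subst hm0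
      have h5 : 0 < J 1 := (Nat.zero_le (J 0)).trans_lt (j1 Nat.zero_lt_one)
      have h6 := hw.id_le (J 1)
      simp only [id] at h6
      simp only [if_true, Nat.zero_add, one_ne_zero, if_false]
      omega
    · simp only [hm0, if_false, Nat.succ_ne_zero]
      exact hw (j1 m.lt_succ_self)
  · dsimp only
    split_ifs with hk h5
    · exact h1 k
    · obtain ⟨i, rfl⟩ := hk
      rw [hwb i]
      exact one_lt_two
    · exact h1 k
  · have hev : ∀ᶠ m in atTop, ∃ i, m ≤ i ∧ i < l m ∧ T x i ≠ σ m i := by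
      by_contra hn
      refine hs (T x) ((not_eventually.1 hn).mono fun m hm i a c => ?_) ⟨x, hxF, rfl⟩
      by_contra hd
      exact hm ⟨i, a, c, hd⟩
    unfold Sq
    filter_upwards [j1.tendsto_atTop.eventually hev, eventually_gt_atTop 0] with m ⟨i, a, c, d⟩ hm0
    have hi2 : i < J (m + 1) := c.trans_le (le_max_left _ _)
    have hni : n i = m := le_antisymm (Nat.lt_succ_iff.1 (j1.lt_iff_lt.1
      ((n2 i i.zero_le).trans_lt hi2))) (n3 _ _ a)
    refine ⟨w i, ⟨?_, ?_⟩, ?_⟩
    · simp only [hm0.ne', if_false]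
      exact hw.monotone a
    · simp only [Nat.succ_ne_zero, if_false]
      exact hw hi2
    · have hk : ∃ j, w j = w i := ⟨_, rfl⟩
      rw [dif_pos hk, hw.injective hk.choose_spec, hni]
      have h7 : x (w i) < 2 := (r hxF (w i)).trans_eq (hwb i)
      have h8 : T x i = decide (x (w i) = 1) := rfl
      rw [h8] at d
      cases h9 : σ (J m) i
      · rw [h9] at d
        have : x (w i) = 1 := by simpa using d
        simp [this]
      · rw [h9] at d
        have : x (w i) ≠ 1 := by simpa using d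
        simp
        omega

end Pool.Agent.KS6_94.BE
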