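import Pool.Agent.KS6_94.BE.B

/-! # `b^eq_b` is at most the uniformity number of the meager ideal -/

namespace Pool.Agent.KS6_94.BE

open Set Filter MeasureTheory Pool.Agent.H84.BeqDefs
open Cardinal hiding univ

theorem le_nonM {b : ℕ → ℕ} (h1 : ∀ k, 1 ≤ b k) (h2 : ∀ᶠ k in atTop, 2 ≤ b k) :
    bEq b ≤ non M := by
  classical
  refine le_csInf ⟨_, univ, univ_notMem_M, rfl⟩ ?_
  rintro _ ⟨A, hA, rfl⟩
  let f : (ℕ → Bool) → ℕ → ℕ := fun a k => if a k = true ∧ 2 ≤ b k then 1 else 0
  refine le_trans (csInf_le' ⟨f '' A, ?_, fun ⟨p, hp, hs⟩ => hA ?_, rfl⟩) mk_image_le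
  · rintro _ ⟨a, _, rfl⟩ k
    have := h1 k
    show (if a k = true ∧ 2 ≤ b k then 1 else 0) < b k
    split_ifs with h <;> omega
  obtain ⟨N, hN⟩ := eventually_atTop.1 h2
  let C : ℕ → Set (ℕ → Bool) := fun m =>
    ⋂ n, ⋂ (_ : m ≤ n), ⋃ k ∈ Ico (p.1 n) (p.1 (n + 1)), {a | f a k = p.2 k}
  have hcl : ∀ m, IsClosed (C m) := fun m => by
    refine isClosed_iInter fun n => isClosed_iInter fun _ => (finite_Ico _ _).isClosed_biUnion
      fun k _ => isClosed_eq ?_ continuous_const
    exact (continuous_of_discreteTopology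
      (f := fun c : Bool => if c = true ∧ 2 ≤ b k then 1 else 0)).comp (continuous_apply k)
  have hC : ∀ m, IsMeagre (C m) := fun m => by
    have hint : interior (C m) = ∅ := by
      by_contra hne
      obtain ⟨z, hz⟩ := nonempty_iff_ne_empty.2 hne
      obtain ⟨V, ⟨w, L, rfl⟩, hzV, hVU⟩ :=
        (PiNat.isTopologicalBasis_cylinders (fun _ : ℕ => Bool)).exists_subset_of_mem_open hz
          isOpen_interior
      have hid := hp.1.id_le (max m (max L N))
      simp only [id] at hid
      have hy : (fun k => if k < p.1 (max m (max L N)) then z k else decide (p.2 k = 0)) ∈ C m :=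
        interior_subset (hVU fun i hi => by
          have h5 : i < p.1 (max m (max L N)) := by omega
          simp only [h5, if_true]
          exact hzV i hi)
      have h6 := mem_iInter.1 (mem_iInter.1 hy (max m (max L N))) (le_max_left _ _)
      obtain ⟨k, hk, h7⟩ := mem_iUnion₂.1 h6
      have h8 : ¬ k < p.1 (max m (max L N)) := not_lt.2 hk.1
      have h9 : 2 ≤ b k := hN k (by have := hk.1; omega)
      have h10 : (if (if k < p.1 (max m (max L N)) then z k else decide (p.2 k = 0)) = true ∧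
        2 ≤ b k then 1 else 0) = p.2 k := h7
      rw [if_neg h8] at h10
      by_cases h11 : p.2 k = 0
      · simp [h11, h9] at h10
      · simp [h11] at h10
        omega
    exact ((hcl m).isNowhereDense_iff.2 hint).isMeagre
  refine (isMeagre_iUnion hC).mono fun a ha => ?_
  obtain ⟨m, hm⟩ := eventually_atTop.1 (hs _ ⟨a, ha, rfl⟩)
  refine mem_iUnion.2 ⟨m, mem_iInter.2 fun n => mem_iInter.2 fun hn => ?_⟩
  obtain ⟨k, hk, h5⟩ := hm n hn
  exact mem_iUnion₂.2 ⟨k, hk, h5⟩

end Pool.Agent.KS6_94.BE
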